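import Mathlib
import Pool.Agent.H498R3.NLWMain

set_option autoImplicit false
open Set Filter Topology Asymptotics

namespace Pool.Agent.Results.MP_a45a4d_an.NoNonconstantProfile

/-- `f` is the nonlinearity `x ↦ xᵖ` read as `x ↦ |x|^(p-1) x`; for `p = 4` (the only integer
strictly between `3` and `5`) the literal reading `x ↦ x⁴` is allowed as well. -/
def IsPower (p : ℝ) (f : ℝ → ℝ) : Prop :=
  (∀ x, f x = |x| ^ (p - 1) * x) ∨ (p = 4 ∧ ∀ x, f x = x ^ 4)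

/-- `Φ` solves the profile equation
`(1-y²)Φ'' + (2/y - 2(p+1)/(p-1) y)Φ' - 2(p+1)/(p-1)² Φ + f(Φ) = 0` at every `y > 0`
(so also at the light cone `y = 1`). -/
def SolvesODE (p : ℝ) (f Φ : ℝ → ℝ) : Prop :=
  ∀ y : ℝ, 0 < y →
    (1 - y ^ 2) * deriv (deriv Φ) y
      + (2 / y - 2 * (p + 1) / (p - 1) * y) * deriv Φ y
      - 2 * (p + 1) / (p - 1) ^ 2 * Φ y + f (Φ y) = 0

/-- For every `3 < p < 5`, each `C²` solution `Φ : [0, ∞) → ℝ` of the profile equation is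
constant; hence the only one with `Φ(y) = O(y^(-2/(p-1)))` is zero. -/
theorem result (p : ℝ) (hp3 : 3 < p) (hp5 : p < 5) (f : ℝ → ℝ) (hf : IsPower p f)
    (Φ : ℝ → ℝ) (hΦ : ContDiffOn ℝ 2 Φ (Ici 0)) (hode : SolvesODE p f Φ) :
    (∀ y, 0 ≤ y → Φ y = Φ 0) ∧
      (Φ =O[atTop] (fun y : ℝ => y ^ (-(2 / (p - 1)))) → ∀ y, 0 ≤ y → Φ y = 0) := by
  have hp1 : 0 < p - 1 := by linarith
  set α : ℝ := 2 / (p - 1) with hα
  have ha : 1 / 2 < α := by
    rw [hα, div_lt_div_iff₀ two_pos hp1]; linarith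
  have hc : 0 < α * (1 + α) := by
    have : 0 < α := by linarith
    positivity
  have e1 : 2 * (p + 1) / (p - 1) = 2 * (1 + α) := by
    rw [hα]; field_simp; ring
  have e2 : 2 * (p + 1) / (p - 1) ^ 2 = α * (1 + α) := by
    rw [hα]; field_simp; ring
  obtain ⟨F, f', hF, hff, hf', hf0, hxf, hS⟩ : ∃ F f' : ℝ → ℝ, (∀ x, HasDerivAt F (f x) x) ∧
      (∀ x, HasDerivAt f (f' x) x) ∧ Continuous f' ∧ f 0 = 0 ∧
      (∀ x, 2 / (p - 1) * (x * f x) = 2 * (1 + 2 / (p - 1)) * F x) ∧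
      (∀ c, 0 < c → ∀ β, 0 < β * (f β - c * β) → ∃ μ : ℝ, 0 < μ ∧
        ∀ x, β * β ≤ β * x → μ * (β * x) ^ 3 ≤ β * (f x - c * x)) := by
    rcases hf with h | ⟨hp4, h⟩
    · exact Pool.Agent.H498R3.NLW.power_abs hp3 h
    · exact Pool.Agent.H498R3.NLW.power_four hp4 h
  rw [← hα] at hxf
  -- regularity
  have hUD : UniqueDiffOn ℝ (Ici (0 : ℝ)) := uniqueDiffOn_Ici 0
  set Φ₁ : ℝ → ℝ := derivWithin Φ (Ici 0) with hΦ₁
  have hΦ1C : ContDiffOn ℝ 1 Φ₁ (Ici 0) := hΦ.derivWithin hUD (by norm_num)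
  have hnhds : ∀ y : ℝ, 0 < y → Ici (0 : ℝ) ∈ 𝓝 y := fun y hy => Ici_mem_nhds hy
  have hΦ1eq : ∀ y : ℝ, 0 < y → Φ₁ y = deriv Φ y := fun y hy =>
    derivWithin_of_mem_nhds (hnhds y hy)
  have hd : ∀ y, 0 < y → HasDerivAt Φ (Φ₁ y) y := by
    intro y hy
    rw [hΦ1eq y hy]
    exact ((hΦ.differentiableOn (by norm_num)).differentiableAt (hnhds y hy)).hasDerivAt
  have hev : ∀ y : ℝ, 0 < y → Φ₁ =ᶠ[𝓝 y] deriv Φ := by
    intro y hy
    filter_upwards [Ioi_mem_nhds hy] with z hz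
    exact hΦ1eq z hz
  have hd1 : ∀ y, 0 < y → HasDerivAt Φ₁ (deriv (deriv Φ) y) y := by
    intro y hy
    have h := ((hΦ1C.differentiableOn (by norm_num)).differentiableAt (hnhds y hy)).hasDerivAt
    rwa [(hev y hy).deriv_eq] at h
  have h0 : ContinuousOn Φ (Icc 0 1) := hΦ.continuousOn.mono Icc_subset_Ici_self
  have h1 : ContinuousOn Φ₁ (Icc 0 1) := hΦ1C.continuousOn.mono Icc_subset_Ici_self
  have hode' : ∀ y, 0 < y → (1 - y ^ 2) * deriv (deriv Φ) y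
      + (2 / y - 2 * (1 + α) * y) * Φ₁ y - α * (1 + α) * Φ y + f (Φ y) = 0 := by
    intro y hy
    have h := hode y hy
    rw [e1, e2] at h
    rw [hΦ1eq y hy]
    exact h
  have hconst := Pool.Agent.H498R3.NLW.constant ha F f f' Φ Φ₁ (deriv (deriv Φ)) hF hff hf' hf0
    hxf (hS _ hc) h0 h1 hd hd1 hode'
  refine ⟨fun y hy => (hconst y hy).trans (hconst 0 le_rfl).symm, ?_⟩
  intro hdecay y hy
  have hlim : Tendsto (fun y : ℝ => y ^ (-α)) atTop (𝓝 0) :=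
    tendsto_rpow_neg_atTop (by linarith)
  have hΦ0 : Tendsto Φ atTop (𝓝 0) := hdecay.trans_tendsto hlim
  have hΦ1' : Tendsto Φ atTop (𝓝 (Φ 1)) := by
    refine tendsto_const_nhds.congr' ?_
    filter_upwards [eventually_ge_atTop (0 : ℝ)] with z hz
    exact (hconst z hz).symm
  rw [hconst y hy]
  exact tendsto_nhds_unique hΦ1' hΦ0

end Pool.Agent.Results.MP_a45a4d_an.NoNonconstantProfile
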